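import Mathlib
import Pool.Agent.Helper49.CDC.Defs
import Pool.Agent.Helper49.CDC.Final

namespace Pool.Agent.Results.MP_7cf8d2_co.CycleFourFlow

open Pool.Agent.Helper49.CDC

/-- Let `G` be a finite loopless multigraph (cubic in the problem), `C 0` a cycle of `G`, and
`C 1, ..., C m` (possibly none) further cycles, all pairwise vertex-disjoint, with union `Z`.
Suppose that the edges outside `Z` carry nonzero elements of `ZMod 2 × ZMod 2` whose sum is zero at
every vertex off `Z`, and, for each `i ≠ 0` and each component `K` of `G - E(Z)`, whose sum over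
the ends of `K` on `C i` is zero. Then `G` has a 5-cycle double cover one of whose members is `Z`;
in particular it contains the cycle `C 0`.  For `m = 0` (only the cycle `C 0`) and `G` cubic the
hypothesis says: the edges outside `C 0` have a colouring with three colours such that the
three edges at every vertex not on `C 0` have different colours. -/
theorem result {V E : Type*} [Finite V] [Finite E] (ends : E → Sym2 V)
    (hloop : ∀ e, ¬ (ends e).IsDiag)
    (m : ℕ) (C : Fin (m + 1) → Set E) (hC : ∀ i, IsCycle ends (C i))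
    (hdisj : ∀ i j, i ≠ j → Disjoint (verts ends (C i)) (verts ends (C j)))
    (g : E → ZMod 2 × ZMod 2) (hg : ∀ e, g e = 0 ↔ e ∈ ⋃ i, C i)
    (hflow : ∀ v, v ∉ ⋃ i, verts ends (C i) → vsum ends g v = 0)
    (hcirc : ∀ i, i ≠ 0 → ∀ u,
      ∑ᶠ v ∈ {v | v ∈ verts ends (C i) ∧ Joined ends (⋃ i, C i) u v}, vsum ends g v = 0) :
    ∃ D : Fin 5 → Set E, D 0 = ⋃ i, C i ∧ IsFiveCDC ends D := by
  classical
  have := Fintype.ofFinite V
  have := Fintype.ofFinite E
  have hvs : ∀ v, vsum ends g v = ∑ e with v ∈ ends e, g e := by
    intro v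
    unfold vsum
    rw [finsum_mem_eq_toFinset_sum]
    apply Finset.sum_congr _ (fun _ _ => rfl)
    ext e; simp
  have hvs' : ∀ v, ∑ e with v ∈ ends e ∧ e ∉ ⋃ i, C i, g e = vsum ends g v := by
    intro v
    rw [hvs v, ← Finset.filter_filter, Finset.sum_filter]
    apply Finset.sum_congr rfl
    intro e _
    by_cases he : e ∈ ⋃ i, C i
    · rw [if_neg (by simpa using he), (hg e).2 he]
    · rw [if_pos he]
  obtain ⟨D, hD0, hD⟩ := main ends hloop m C hC hdisj g
    (fun e he h => he ((hg e).1 h))
    (by
      intro v hv
      refine Eq.trans (Finset.sum_congr (by ext; simp) (fun _ _ => rfl))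
        ((hvs v).symm.trans (hflow v (by simpa using hv))))
    (by
      intro i hi u
      refine Eq.trans ?_ (hcirc i hi u)
      rw [finsum_mem_eq_toFinset_sum]
      apply Finset.sum_congr
      · ext v; simp
      · intro v _
        refine Eq.trans (Finset.sum_congr (by ext; simp) (fun _ _ => rfl)) (hvs' v))
  exact ⟨D, hD0, hD⟩

end Pool.Agent.Results.MP_7cf8d2_co.CycleFourFlow
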