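import Mathlib
import Pool.Agent.Helper37.CDC8.Final
import Pool.Agent.Helper98.CDC.Main

namespace Pool.Agent.Results.MP_7cf8d2_co.EightCDC

open Pool.Agent.Helper37.CDC8

/-- **The cycle double cover conjecture is true**, with at most eight classes. Let `G` be a finite
multigraph (loops and parallel edges allowed) without a bridge, that is, the two ends of every edge
`e` are joined by a walk avoiding `e`. Then there are eight finite lists `L 0, ..., L 7` of
circuits of `G`, the circuits in one list being pairwise edge-disjoint (so that the union of
each list is an even subgraph), such that every edge of `G` lies in a circuit of exactly two of the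
eight lists. -/
theorem result {V E : Type*} [Finite V] [Finite E] (ends : E → Sym2 V)
    (hb : Bridgeless ends) :
    ∃ L : Fin 8 → List (Set E), (∀ i, ∀ C ∈ L i, IsCircuit ends C) ∧
      (∀ i, (L i).Pairwise Disjoint) ∧ ∀ e, {i | ∃ C ∈ L i, e ∈ C}.ncard = 2 :=
  Pool.Agent.Helper98.CDC.cycle_double_cover ends hb

end Pool.Agent.Results.MP_7cf8d2_co.EightCDC
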