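import Mathlib
import Pool.Agent.Helper49.CDC.Defs
import Pool.Agent.Helper50.Outer.Final

namespace Pool.Agent.Results.MP_7cf8d2_co.FiveCDC

open Pool.Agent.Helper49.CDC

/-- **Every cycle of a bridgeless cubic graph is contained in a 5-cycle double cover.** Let `G` be
a finite cubic multigraph without loops and without bridges: every vertex is on exactly three edges,
and the two ends of every edge `e` are joined by a walk avoiding `e`. Let `C` be (the edge set of)
a cycle of `G`. Then there are five even subgraphs `D 0, ..., D 4` of `G` such that every edge of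
`G` lies in exactly two of them, and `C` is contained in `D 0`. -/
theorem result {V E : Type*} [Finite V] [Finite E] (ends : E → Sym2 V)
    (hloop : ∀ e, ¬ (ends e).IsDiag)
    (hcubic : ∀ v, {e | v ∈ ends e}.ncard = 3)
    (hbridge : ∀ e a b, ends e = s(a, b) →
      Relation.ReflTransGen (fun x y => ∃ f, f ≠ e ∧ ends f = s(x, y)) a b)
    (C : Set E) (hC : IsCycle ends C) :
    ∃ D : Fin 5 → Set E, C ⊆ D 0 ∧ IsFiveCDC ends D :=
  Pool.Agent.Helper50.Outer.q1_final ends hloop hcubic hbridge C hC

end Pool.Agent.Results.MP_7cf8d2_co.FiveCDC
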