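import Mathlib
import Pool.Agent.Helper98.CDC.Main

namespace Pool.Agent.Results.MP_7cf8d2_co.FlowLift

/-- Every nowhere-zero flow `g` with values in `F₂³` of a finite cubic multigraph is induced by an
8-cycle double cover: there are eight even subgraphs `D x`, indexed by the elements `x` of `F₂³`,
such that each edge `e` lies in exactly two of them, `D x` and `D (x + g e)` for some `x`. -/
theorem result {V E : Type*} [Finite V] [Finite E] (ends : E → Sym2 V)
    (hloop : ∀ e, ¬ (ends e).IsDiag) (hcubic : ∀ v, {e | v ∈ ends e}.ncard = 3)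
    (g : E → Fin 3 → ZMod 2) (hg : ∀ e, g e ≠ 0)
    (hflow : ∀ v, ∑ᶠ e ∈ {e | v ∈ ends e}, g e = 0) :
    ∃ D : (Fin 3 → ZMod 2) → Set E, (∀ x v, Even {e | e ∈ D x ∧ v ∈ ends e}.ncard) ∧
      ∀ e, ∃ x, {y | e ∈ D y} = {x, x + g e} :=
  Pool.Agent.Helper98.CDC.lifting ends hloop hcubic g hg hflow

end Pool.Agent.Results.MP_7cf8d2_co.FlowLift
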